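import Pool.Agent.X103.Morrey1

/-!
# Rank-one convexity gives the quasiconvexity inequality for test maps affine on level sets
-/

set_option autoImplicit false

open MeasureTheory Matrix Set
open scoped NNReal

namespace Pool.Agent.Results.MP_515557_an.AffineOnLevelSets

/-- Let `W` be a rank-one convex function on the real `2 × 2` matrices (no smoothness or growth
condition), `F₀` a matrix and `Ω` a bounded open subset of the plane.  Then the quasiconvexity
inequality holds for every test map of the form `ϑ x = N (ρ x) x + b (ρ x)`, where `ρ` is any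
Lipschitz function vanishing outside `Ω`, `N` any `C¹` curve of matrices with `N 0 = 0`, and
`b` any `C¹` curve in the plane with `b 0 = 0`; such a map is Lipschitz and vanishes
outside `Ω`. -/
theorem result (W : Matrix (Fin 2) (Fin 2) ℝ → ℝ)
    (hW : ∀ F H : Matrix (Fin 2) (Fin 2) ℝ, H.rank = 1 → ∀ t : ℝ, 0 ≤ t → t ≤ 1 →
      W ((1 - t) • F + t • (F + H)) ≤ (1 - t) * W F + t * W (F + H))
    (F₀ : Matrix (Fin 2) (Fin 2) ℝ) (Ω : Set (Fin 2 → ℝ)) (hΩ : IsOpen Ω)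
    (hb : Bornology.IsBounded Ω) (ρ : (Fin 2 → ℝ) → ℝ) (L : ℝ≥0) (hρ : LipschitzWith L ρ)
    (hρ0 : ∀ x, x ∉ Ω → ρ x = 0) (N : ℝ → Matrix (Fin 2) (Fin 2) ℝ) (b : ℝ → Fin 2 → ℝ)
    (hN : ∀ i j, ContDiff ℝ 1 (fun t => N t i j)) (hN0 : N 0 = 0)
    (hb1 : ∀ i, ContDiff ℝ 1 (fun t => b t i)) (hb0 : b 0 = 0)
    (ϑ : (Fin 2 → ℝ) → (Fin 2 → ℝ)) (hϑ : ∀ x, ϑ x = N (ρ x) *ᵥ x + b (ρ x)) :
    (∃ K : ℝ≥0, LipschitzWith K ϑ) ∧ (∀ x, x ∉ Ω → ϑ x = 0) ∧
    W F₀ * (volume Ω).toReal ≤ ∫ x in Ω, W (F₀ + LinearMap.toMatrix'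
      ((fderiv ℝ ϑ x : (Fin 2 → ℝ) →L[ℝ] (Fin 2 → ℝ)) : (Fin 2 → ℝ) →ₗ[ℝ] (Fin 2 → ℝ))) := by
  have hd1 : ∀ i j t, HasDerivAt (fun t => N t j i) (deriv (fun t => N t j i) t) t :=
    fun i j t => ((hN j i).differentiable (by norm_num) t).hasDerivAt
  have hd2 : ∀ i j : Fin 2, Continuous (deriv (fun t => N t j i)) :=
    fun i j => (hN j i).continuous_deriv (by norm_num)
  have hd3 : ∀ j t, HasDerivAt (fun t => b t j) (deriv (fun t => b t j) t) t :=
    fun j t => ((hb1 j).differentiable (by norm_num) t).hasDerivAt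
  have hd4 : ∀ j : Fin 2, Continuous (deriv (fun t => b t j)) :=
    fun j => (hb1 j).continuous_deriv (by norm_num)
  have h00 : ∀ i j : Fin 2, (fun t => N t j i) 0 = 0 := fun i j => by simp only [hN0, Matrix.zero_apply]
  have e : ϑ = fun (x : Fin 2 → ℝ) (a : Fin 2) =>
      ∑ i, x i * (fun t => N t a i) (ρ x) + (fun t => b t a) (ρ x) := by
    funext x a
    rw [hϑ x]
    simp only [Pi.add_apply, mulVec, dotProduct]
    congr 1
    exact Finset.sum_congr rfl fun i _ => mul_comm _ _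
  refine ⟨?_, fun x hx => ?_, ?_⟩
  · rw [e]
    exact X103.Morrey1.field_lip (g := fun i j t => N t j i) (h := fun j t => b t j)
      hρ hb hρ0 hd1 hd2 h00 hd3 hd4
  · rw [hϑ x, hρ0 x hx, hN0, hb0, zero_mulVec, add_zero]
  · have := X103.Morrey1.main (W := W) hW F₀ hρ hΩ hb hρ0 (N := fun i j t => N t j i)
      (b := fun j t => b t j) hd1 hd2 h00 hd3 hd4
    rw [e]
    exact this

end Pool.Agent.Results.MP_515557_an.AffineOnLevelSets
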