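import Pool.Agent.X91.VH.Fin

/-!
# Morrey's problem for homogeneous functions plus functions of the determinant

Let `V` be a positively homogeneous function of degree `p > 0`, `p ≠ 2`, of a real `2 × 2` matrix
and `f` an arbitrary function of one real variable.  `W(A) = V(A) + f(det A)` is rank-one convex if
and only if it is the sum of a rank-one convex `p`-homogeneous function and a convex function of the
determinant; the two differ from `V` and `f(det)` by multiples of `|det| ^ (p / 2)`, with one
coefficient for positive and one for negative determinant.  So Morrey's problem for such `W` reduces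
to that for homogeneous functions, and for isotropic `V` the answer is positive.

Sketch.  Let `e(δ) = ± δ ^ (p / 2)`, convex on `(0, ∞)`.  For each real `a` either `f - a e` is
convex on `(0, ∞)` or `V + a e(det)` is rank-one convex on positive determinants: a point where an
affine function touches `f - a e` from above can be moved by scaling to every matrix.  By
connectedness some `a` has both properties.  Similarly for negative determinants.  Across
`det = 0` the kinks of the two parts scale differently because `p ≠ 2`, so both are nonnegative.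
-/

set_option autoImplicit false

namespace Pool.Agent.Results.MP_515557_an.HomogeneousPlusDeterminant

open MeasureTheory

/-- rank-one convexity -/
def RankOneConvex (W : Matrix (Fin 2) (Fin 2) ℝ → ℝ) : Prop :=
  ∀ F H : Matrix (Fin 2) (Fin 2) ℝ, H.rank = 1 → ∀ t : ℝ, 0 ≤ t → t ≤ 1 →
    W ((1 - t) • F + t • (F + H)) ≤ (1 - t) * W F + t * W (F + H)

/-- quasiconvexity -/
def Quasiconvex (W : Matrix (Fin 2) (Fin 2) ℝ → ℝ) : Prop :=
  ∀ F₀ : Matrix (Fin 2) (Fin 2) ℝ, ∀ Ω : Set (Fin 2 → ℝ), IsOpen Ω → Bornology.IsBounded Ω →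
    ∀ ϑ : (Fin 2 → ℝ) → (Fin 2 → ℝ), (∃ K, LipschitzWith K ϑ) → (∀ x, x ∉ Ω → ϑ x = 0) →
      W F₀ * (volume Ω).toReal ≤
        ∫ x in Ω, W (F₀ + LinearMap.toMatrix'
          ((fderiv ℝ ϑ x : (Fin 2 → ℝ) →L[ℝ] (Fin 2 → ℝ)) : (Fin 2 → ℝ) →ₗ[ℝ] (Fin 2 → ℝ)))

/-- positive homogeneity of degree `p` -/
def Homogeneous (p : ℝ) (V : Matrix (Fin 2) (Fin 2) ℝ → ℝ) : Prop :=
  ∀ c : ℝ, 0 < c → ∀ A, V (c • A) = c ^ p * V A

/-- invariance under left and right rotations -/
def Isotropic (V : Matrix (Fin 2) (Fin 2) ℝ → ℝ) : Prop :=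
  ∀ R ∈ Matrix.specialOrthogonalGroup (Fin 2) ℝ, ∀ Q ∈ Matrix.specialOrthogonalGroup (Fin 2) ℝ,
    ∀ A, V (R * A * Q) = V A

/-- `a δ₊ ^ (p / 2) + b δ₋ ^ (p / 2)` with `δ₊ = max(δ, 0)`, `δ₋ = max(-δ, 0)` -/
noncomputable def pm (p a b δ : ℝ) : ℝ := a * (max δ 0) ^ (p / 2) + b * (max (-δ) 0) ^ (p / 2)

/-- Let `p > 0`, `p ≠ 2`, let `V` be a positively `p`-homogeneous function of a real `2 × 2` matrix
and `f : ℝ → ℝ` arbitrary, and let `W(A) = V(A) + f(det A)`.

(1) `W` is rank-one convex if and only if there are `a, b` such that `V + pm(det)` is rank-one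
convex and `f - pm` is convex.

(2) If all rank-one convex `p`-homogeneous functions are quasiconvex, and `W` is rank-one convex,
then `W` is quasiconvex.

(3) If `V` is isotropic and `W` is rank-one convex, then `W` is quasiconvex. -/
theorem result (p : ℝ) (hp : 0 < p) (hp2 : p ≠ 2) (V : Matrix (Fin 2) (Fin 2) ℝ → ℝ)
    (hV : Homogeneous p V) (f : ℝ → ℝ) :
    (RankOneConvex (fun A => V A + f A.det) ↔
      ∃ a b : ℝ, RankOneConvex (fun A => V A + pm p a b A.det) ∧
        ConvexOn ℝ Set.univ (fun δ => f δ - pm p a b δ)) ∧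
    ((∀ U, Homogeneous p U → RankOneConvex U → Quasiconvex U) →
      RankOneConvex (fun A => V A + f A.det) → Quasiconvex (fun A => V A + f A.det)) ∧
    (Isotropic V → RankOneConvex (fun A => V A + f A.det) →
      Quasiconvex (fun A => V A + f A.det)) := by
  refine ⟨⟨fun h => Pool.Agent.X91.VH.decomp hp hp2 hV h, ?_⟩, ?_, ?_⟩
  · rintro ⟨a, b, h1, h2⟩
    have h3 := Pool.Agent.X91.VH.Rc_add_det (Vt := fun A => V A + pm p a b A.det)
      (ft := fun δ => f δ - pm p a b δ) h1 h2
    have e : (fun A : Matrix (Fin 2) (Fin 2) ℝ => (V A + pm p a b A.det)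
        + (f A.det - pm p a b A.det)) = fun A => V A + f A.det := by
      funext A; ring
    exact e ▸ h3
  · intro hU h
    refine Pool.Agent.X91.VH.main hp hp2 hV h fun a b hr => hU _ ?_ hr
    intro c hc A
    beta_reduce
    rw [hV c hc, Pool.Agent.X91.VH.det_smul2, Pool.Agent.X91.VH.pm_hom a b hc]
    ring
  · intro hi h
    exact Pool.Agent.X91.VH.iso hp hp2 hi hV h

end Pool.Agent.Results.MP_515557_an.HomogeneousPlusDeterminant
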