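import Pool.Agent.X91.MQ.Tests

/-!
# Morrey's problem for typical rank-one convex functions

`Sp` is the space of all rank-one convex functions of a real `2 × 2` matrix with locally uniform
convergence, `SpW ω` the space of those `W` for which `v = W / ω` is bounded, with the sup norm of
`v`, where `ω` is a weight of at least linear growth.  Typical means: for all members of a residual
set.  Typical functions are universal: up to affine functions and constant factors they look at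
small scales like each rank-one convex function, at a dense open set of matrices for each accuracy.
So either all rank-one convex functions are quasiconvex, or typical ones violate the inequality
at a dense open set of matrices, for arbitrarily small multiples of one test map; in fact of all
test maps for which some rank-one convex function violates it.
-/

set_option autoImplicit false

open MeasureTheory Set Filter
open scoped BoundedContinuousFunction

namespace Pool.Agent.Results.MP_515557_an.TypicalFunctions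

/-- Rank-one convexity. -/
def RankOneConvex (W : Matrix (Fin 2) (Fin 2) ℝ → ℝ) : Prop :=
  ∀ F H : Matrix (Fin 2) (Fin 2) ℝ, H.rank = 1 → ∀ t : ℝ, 0 ≤ t → t ≤ 1 →
    W ((1 - t) • F + t • (F + H)) ≤ (1 - t) * W F + t * W (F + H)

/-- `ϑ` is a test map for `Ω`: `Ω` is open and bounded, `ϑ` is Lipschitz and zero off `Ω`. -/
def Test (Ω : Set (Fin 2 → ℝ)) (ϑ : (Fin 2 → ℝ) → (Fin 2 → ℝ)) : Prop :=
  IsOpen Ω ∧ Bornology.IsBounded Ω ∧ (∃ K, LipschitzWith K ϑ) ∧ ∀ x, x ∉ Ω → ϑ x = 0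

/-- The gradient matrix. -/
noncomputable def grad (ϑ : (Fin 2 → ℝ) → (Fin 2 → ℝ)) (x : Fin 2 → ℝ) :
    Matrix (Fin 2) (Fin 2) ℝ :=
  LinearMap.toMatrix' ((fderiv ℝ ϑ x : (Fin 2 → ℝ) →L[ℝ] (Fin 2 → ℝ)) :
    (Fin 2 → ℝ) →ₗ[ℝ] (Fin 2 → ℝ))

/-- The quasiconvexity inequality for `W` fails at the matrix `F₀` for the test map `ϑ`. -/
def Fails (W : Matrix (Fin 2) (Fin 2) ℝ → ℝ) (F₀ : Matrix (Fin 2) (Fin 2) ℝ)
    (Ω : Set (Fin 2 → ℝ)) (ϑ : (Fin 2 → ℝ) → (Fin 2 → ℝ)) : Prop :=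
  ∫ x in Ω, W (F₀ + grad ϑ x) < W F₀ * (volume Ω).toReal

/-- At the matrix `F₀` and at some scale `δ < ε` the function `W` is the sum of an affine function
and of `c δ h`, `c < ε`, on the ball of radius `R`, up to an error less than `ε c δ`. -/
def BlowUp (W h : Matrix (Fin 2) (Fin 2) ℝ → ℝ) (R ε : ℝ) (F₀ : Matrix (Fin 2) (Fin 2) ℝ) :
    Prop :=
  ∃ δ c : ℝ, 0 < δ ∧ δ < ε ∧ 0 < c ∧ c < ε ∧
    ∃ (a : ℝ) (L : Matrix (Fin 2) (Fin 2) ℝ →ₗ[ℝ] ℝ), ∀ X : Matrix (Fin 2) (Fin 2) ℝ,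
      (∀ i j, |X i j| ≤ R) → |W (F₀ + δ • X) - (a + L X) - c * δ * h X| < ε * (c * δ)

/-- `W` is universal: every rank-one convex function is a blow-up of `W`, and for every test map
`ϑ` for which the inequality fails for some rank-one convex function at some matrix, it fails for
`W` and for arbitrarily small multiples of `ϑ`; in both cases at dense open sets of matrices. -/
def Universal (W : Matrix (Fin 2) (Fin 2) ℝ → ℝ) : Prop :=
  (∀ h, RankOneConvex h → ∀ R ε : ℝ, 0 < ε →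
    ∃ G : Set (Matrix (Fin 2) (Fin 2) ℝ), IsOpen G ∧ Dense G ∧ ∀ F₀ ∈ G, BlowUp W h R ε F₀) ∧
  ∀ Ω ϑ, Test Ω ϑ → (∃ V F₁, RankOneConvex V ∧ Fails V F₁ Ω ϑ) → ∀ η : ℝ, 0 < η →
    ∃ G : Set (Matrix (Fin 2) (Fin 2) ℝ), IsOpen G ∧ Dense G ∧ ∀ F₀ ∈ G,
      ∃ δ : ℝ, 0 < δ ∧ δ < η ∧ Fails W F₀ Ω (δ • ϑ)

/-- All rank-one convex functions, with locally uniform convergence. -/
abbrev Sp : Type := {g : C(Matrix (Fin 2) (Fin 2) ℝ, ℝ) // RankOneConvex g}

/-- The rank-one convex functions `ω v` with a bounded continuous function `v`, with the sup norm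
of `v`. -/
abbrev SpW (ω : Matrix (Fin 2) (Fin 2) ℝ → ℝ) : Type :=
  {v : Matrix (Fin 2) (Fin 2) ℝ →ᵇ ℝ // RankOneConvex (fun F => ω F * v F)}

/-- The largest absolute value of an entry. -/
noncomputable def mx (X : Matrix (Fin 2) (Fin 2) ℝ) : ℝ :=
  ‖(fun i j => X i j : Fin 2 → Fin 2 → ℝ)‖

theorem universal_of {W : Matrix (Fin 2) (Fin 2) ℝ → ℝ} (hW : RankOneConvex W)
    (h : X91.MQ.Universal W) : Universal W := by
  refine ⟨fun g hg R ε hε => ?_, fun Ω ϑ hT hV η hη => ?_⟩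
  · obtain ⟨G, h1, h2, h3⟩ := h g hg R ε hε
    refine ⟨G, h1, h2, fun F₀ hF => ?_⟩
    obtain ⟨δ, c, hδ, hδ', hc, hc', a, L, hL⟩ := h3 F₀ hF
    refine ⟨δ, c, hδ, hδ', hc, hc', a, L, fun X hX => hL X ?_⟩
    exact (X91.MQ.nrm_le ((abs_nonneg _).trans (hX 0 0))).2 hX
  · obtain ⟨hΩ, hb, ⟨K, hK⟩, h0⟩ := hT
    obtain ⟨V, F₁, hV, hF⟩ := hV
    exact X91.MQ.universal_tests hW h hΩ hb hK h0 hV hF hη

/-- **Zero-one law for Morrey's problem.**
1. In the space of all rank-one convex functions, and in the weighted spaces, for each continuous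
weight of at least linear growth, typical functions are universal.
2. Either the quasiconvexity inequality holds for all rank-one convex functions, or there is one
test map such that each universal function violates the inequality for arbitrarily small multiples
of this test map at a dense open set of matrices.
3. The inequality holds for all rank-one convex functions if it holds for those which are of the
form `a max |X i j| - b` outside a ball. -/
theorem result :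
    (BaireSpace Sp ∧ ∀ᶠ g : Sp in residual Sp, Universal g.1) ∧
    (∀ ω : Matrix (Fin 2) (Fin 2) ℝ → ℝ, Continuous ω → ∀ κ : ℝ, 0 < κ →
      (∀ F, κ * (1 + mx F) ≤ ω F) →
      BaireSpace (SpW ω) ∧ ∀ᶠ v : SpW ω in residual (SpW ω), Universal (fun F => ω F * v.1 F)) ∧
    ((∀ W F₀ Ω ϑ, RankOneConvex W → Test Ω ϑ →
        W F₀ * (volume Ω).toReal ≤ ∫ x in Ω, W (F₀ + grad ϑ x)) ∨
      ∃ Ω ϑ, Test Ω ϑ ∧ ∀ W, Universal W → ∀ η : ℝ, 0 < η →
        ∃ G : Set (Matrix (Fin 2) (Fin 2) ℝ), IsOpen G ∧ Dense G ∧ ∀ F₀ ∈ G,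
          ∃ δ : ℝ, 0 < δ ∧ δ < η ∧ Fails W F₀ Ω (δ • ϑ)) ∧
    ((∀ W F₀ Ω ϑ, RankOneConvex W → (∃ a b ρ : ℝ, ∀ X, ρ < mx X → W X = a * mx X - b) →
        Test Ω ϑ → W F₀ * (volume Ω).toReal ≤ ∫ x in Ω, W (F₀ + grad ϑ x)) →
      ∀ W F₀ Ω ϑ, RankOneConvex W → Test Ω ϑ →
        W F₀ * (volume Ω).toReal ≤ ∫ x in Ω, W (F₀ + grad ϑ x)) := by
  refine ⟨⟨?_, ?_⟩, fun ω hω κ hκ h => ⟨?_, ?_⟩, ?_, ?_⟩
  · exact inferInstanceAs (BaireSpace X91.MQ.RCset)
  · have h := X91.MQ.typical_universal (X := X91.MQ.RCset) (fun x => x.2)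
      X91.MQ.continuous_loc X91.MQ.stable_loc
    filter_upwards [h] with x hx
    exact universal_of x.2 hx
  · exact inferInstanceAs (BaireSpace (X91.MQ.WSet ω))
  · have h := X91.MQ.typical_universal (X := X91.MQ.WSet ω)
      (ι := fun (x : X91.MQ.WSet ω) F => ω F * (x : Matrix (Fin 2) (Fin 2) ℝ →ᵇ ℝ) F)
      (fun x => x.2) (X91.MQ.continuous_wt hω) (X91.MQ.stable_wt hω hκ h)
    filter_upwards [h] with x hx
    exact universal_of x.2 hx
  · by_cases hM : ∀ W F₀ Ω ϑ, RankOneConvex W → Test Ω ϑ →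
        W F₀ * (volume Ω).toReal ≤ ∫ x in Ω, W (F₀ + grad ϑ x)
    · exact Or.inl hM
    · push Not at hM
      obtain ⟨V, F₁, Ω, ϑ, hV, hT, hF⟩ := hM
      exact Or.inr ⟨Ω, ϑ, hT, fun W hW η hη => hW.2 Ω ϑ hT ⟨V, F₁, hV, hF⟩ η hη⟩
  · intro hH W F₀ Ω ϑ hW hT
    obtain ⟨hΩ, hb, ⟨K, hK⟩, h0⟩ := hT
    obtain ⟨H, hH1, hH2, -, a, b, hab⟩ := X91.MQ.glue hW (X91.MQ.nrm F₀ + K)
      (add_nonneg (X91.MQ.nrm_nonneg _) K.2)
    have h1 := hH H F₀ Ω ϑ hH1 ⟨a, b, _, hab⟩ ⟨hΩ, hb, ⟨K, hK⟩, h0⟩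
    rw [hH2 F₀ (le_add_of_nonneg_right K.2)] at h1
    have e : ∀ x, H (F₀ + grad ϑ x) = W (F₀ + grad ϑ x) := fun x => by
      refine hH2 _ ((X91.MQ.nrm_add _ _).trans (add_le_add le_rfl ?_))
      exact (X91.MQ.nrm_le K.2).2 fun i j => Helper188.Morrey.grad_bound hK x i j
    simp only [e] at h1
    exact h1

end Pool.Agent.Results.MP_515557_an.TypicalFunctions
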